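import Mathlib
import Pool.Agent.Hyp.Main

/-!
# The conjectured bound for defective colourings of linear hypergraphs is false

We disprove Q1 of MP_b2f50e_co, for every uniformity `r + 1 ≥ 3`.  A random hypergraph with `n`
vertices (`n` huge) and average degree about `Δ / 6`, after deletion of its few bad edges, is
linear, has maximum degree at most `Δ`, and all of its `k`-colourings have more than `d n / (r+1)`
monochromatic edges as soon as `(r+1) log k + (d+2) log 2 ≤ D' / (2 k^r)`, `D' = ⌊Δ/6⌋`.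
-/

open Finset Filter

namespace Pool.Agent.Results.MP_b2f50e_co.DefectiveBoundFails

/-- The edge set `E` on the vertex set `Fin n` is `s`-uniform. -/
def IsUniform {n : ℕ} (E : Finset (Finset (Fin n))) (s : ℕ) : Prop :=
  ∀ e ∈ E, e.card = s

/-- The hypergraph `E` is linear: two distinct edges share at most one vertex. -/
def IsLinearHyp {n : ℕ} (E : Finset (Finset (Fin n))) : Prop :=
  ∀ e ∈ E, ∀ e' ∈ E, e ≠ e' → (e ∩ e').card ≤ 1

/-- The hypergraph `E` has maximum degree at most `D`. -/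
def MaxDegreeLE {n : ℕ} (E : Finset (Finset (Fin n))) (D : ℕ) : Prop :=
  ∀ v : Fin n, (E.filter (fun e => v ∈ e)).card ≤ D

/-- The `k`-colouring `c` is `d`-defective: each vertex `v` lies in at most `d` edges all of whose
vertices have the colour of `v`. -/
def IsDefective {n k : ℕ} (E : Finset (Finset (Fin n))) (d : ℕ) (c : Fin n → Fin k) : Prop :=
  ∀ v : Fin n, (E.filter (fun e => v ∈ e ∧ ∀ u ∈ e, c u = c v)).card ≤ d

lemma real_param (r : ℕ) (hr : 2 ≤ r) (C : ℝ) :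
    ∃ d₀ : ℕ, 2 ≤ d₀ ∧ ∀ d : ℕ, d₀ ≤ d → ∃ Δ₀ : ℕ, 2 ≤ Δ₀ ∧ ∀ Δ : ℕ, Δ₀ ≤ Δ →
      4 * (r + 1) ≤ 3 ^ (Δ / 6) ∧ ∀ k : ℕ, 0 < k →
        (k : ℝ) ≤ max 1 (C * ((Δ / Real.log Δ) * (Real.log d / d)) ^ (1 / (r : ℝ))) →
        ((r : ℝ) + 1) * Real.log k + ((d : ℝ) + 2) * Real.log 2
          ≤ ((Δ / 6 : ℕ) : ℝ) / (2 * (k : ℝ) ^ r) := by
  set C' : ℝ := max C 1 with hC'
  have hC1 : 1 ≤ C' := le_max_right _ _
  have hCC : C ≤ C' := le_max_left _ _
  have hCpos : 0 < C' := by linarith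
  have hCr : 0 < C' ^ r := by positivity
  have hCr1 : 1 ≤ C' ^ r := one_le_pow₀ hC1
  have hrR : (2 : ℝ) ≤ r := by exact_mod_cast hr
  have hrpos : (0 : ℝ) < r := by linarith
  -- choice of d₀
  have hlo : ∀ ε : ℝ, 0 < ε → ∀ᶠ x : ℝ in atTop, Real.log x ≤ ε * x := by
    intro ε hε
    have h1 := Real.isLittleO_log_id_atTop.bound hε
    filter_upwards [h1, eventually_ge_atTop (1 : ℝ)] with x hx hx1
    rw [Real.norm_of_nonneg (Real.log_nonneg hx1), id, Real.norm_of_nonneg (by linarith)] at hx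
    exact hx
  have hd := (tendsto_natCast_atTop_atTop (R := ℝ)).eventually
    (hlo (1 / (72 * C' ^ r)) (by positivity))
  obtain ⟨d₁, hd₁⟩ := eventually_atTop.mp hd
  refine ⟨max d₁ 2, le_max_right _ _, ?_⟩
  intro d hdd
  have hd2 : 2 ≤ d := (le_max_right _ _).trans hdd
  have hd2R : (2 : ℝ) ≤ d := by exact_mod_cast hd2
  have hdlog : Real.log d ≤ 1 / (72 * C' ^ r) * d := hd₁ d ((le_max_left _ _).trans hdd)
  have hdlogpos : 0 < Real.log d := Real.log_pos (by linarith)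
  -- choice of Δ₀
  set K : ℝ := r * Real.log C' + ((d : ℝ) + 2) * Real.log 2 with hK
  have hlog2 : 0 < Real.log 2 := Real.log_pos (by norm_num)
  have hlogC : 0 ≤ Real.log C' := Real.log_nonneg hC1
  have hD := (tendsto_natCast_atTop_atTop (R := ℝ)).eventually
    (hlo (1 / 72) (by positivity))
  have hD2 := ((Real.tendsto_log_atTop).comp (tendsto_natCast_atTop_atTop (R := ℝ))).eventually
    (eventually_ge_atTop (max 1 K))
  obtain ⟨Δ₁, hΔ₁⟩ := eventually_atTop.mp (hD.and hD2)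
  refine ⟨max Δ₁ (12 * (r + 2)), (by omega : 2 ≤ 12 * (r + 2)).trans (le_max_right _ _), ?_⟩
  intro Δ hΔ
  have hΔa : 12 * (r + 2) ≤ Δ := (le_max_right _ _).trans hΔ
  obtain ⟨hΔb, hΔc⟩ := hΔ₁ Δ ((le_max_left _ _).trans hΔ)
  simp only [Function.comp_apply] at hΔb hΔc
  have hlogΔ1 : 1 ≤ Real.log Δ := (le_max_left _ _).trans hΔc
  have hlogΔK : K ≤ Real.log Δ := (le_max_right _ _).trans hΔc
  have hD'1 : r + 2 ≤ Δ / 6 := by omega
  have hD'2 : Δ ≤ 12 * (Δ / 6) := by omega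
  have hD'R : (Δ : ℝ) ≤ 12 * ((Δ / 6 : ℕ) : ℝ) := by exact_mod_cast hD'2
  have hΔpos : (0 : ℝ) < Δ := by
    have : 0 < Δ := by omega
    exact_mod_cast this
  refine ⟨?_, ?_⟩
  · calc 4 * (r + 1) ≤ 9 * 3 ^ r := by
          have : r < 3 ^ r := Nat.lt_pow_self (by norm_num)
          omega
      _ = 3 ^ (r + 2) := by ring
      _ ≤ 3 ^ (Δ / 6) := Nat.pow_le_pow_right (by norm_num) hD'1
  · intro k hk hkle
    set Q : ℝ := (Δ / Real.log Δ) * (Real.log d / d) with hQ
    have hQpos : 0 < Q := by positivity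
    have hkR : (1 : ℝ) ≤ k := by exact_mod_cast hk
    have hkr : (k : ℝ) ^ r ≤ max 1 (C' ^ r * Q) := by
      have h1 : (k : ℝ) ≤ max 1 (C' * Q ^ (1 / (r : ℝ))) := by
        refine hkle.trans (max_le_max le_rfl ?_)
        exact mul_le_mul_of_nonneg_right hCC (by positivity)
      rcases le_total (C' * Q ^ (1 / (r : ℝ))) 1 with h2 | h2
      · rw [max_eq_left h2] at h1
        have : (k : ℝ) = 1 := le_antisymm h1 hkR
        rw [this, one_pow]
        exact le_max_left _ _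
      · rw [max_eq_right h2] at h1
        calc (k : ℝ) ^ r ≤ (C' * Q ^ (1 / (r : ℝ))) ^ r :=
              pow_le_pow_left₀ (by linarith) h1 r
          _ = C' ^ r * Q := by
              rw [mul_pow, ← Real.rpow_natCast (Q ^ (1 / (r : ℝ))) r, ← Real.rpow_mul hQpos.le]
              rw [one_div, inv_mul_cancel₀ (by positivity), Real.rpow_one]
          _ ≤ _ := le_max_right _ _
    have hlogd1 : Real.log d / d ≤ 1 / (72 * C' ^ r) := by
      rw [div_le_iff₀ (by linarith)]; exact hdlog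
    have hlogd2 : Real.log d / d ≤ 1 := by
      refine hlogd1.trans ?_
      rw [div_le_one (by positivity)]
      linarith
    have hQle : Q ≤ Δ := by
      calc Q ≤ Δ / 1 * 1 := by
            apply mul_le_mul _ hlogd2 (by positivity) (by positivity)
            exact div_le_div_of_nonneg_left hΔpos.le (by norm_num) hlogΔ1
        _ = Δ := by ring
    have hkr2 : (k : ℝ) ^ r ≤ C' ^ r * Δ := by
      refine hkr.trans (max_le ?_ ?_)
      · have hΔ1 : (1 : ℝ) ≤ Δ := by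
          have : 1 ≤ Δ := by omega
          exact_mod_cast this
        calc (1 : ℝ) = 1 * 1 := by ring
          _ ≤ C' ^ r * Δ := mul_le_mul hCr1 hΔ1 (by norm_num) hCr.le
      · exact mul_le_mul_of_nonneg_left hQle hCr.le
    have hlogk : (r : ℝ) * Real.log k ≤ r * Real.log C' + Real.log Δ := by
      have h1 := Real.log_le_log (by positivity) hkr2
      rw [Real.log_pow, Real.log_mul hCr.ne' hΔpos.ne', Real.log_pow] at h1
      exact h1
    have hlogk0 : 0 ≤ Real.log k := Real.log_nonneg hkR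
    have hL : ((r : ℝ) + 1) * Real.log k + ((d : ℝ) + 2) * Real.log 2 ≤ 3 * Real.log Δ := by
      have h1 : ((r : ℝ) + 1) * Real.log k ≤ 3 / 2 * (r * Real.log k) := by
        nlinarith
      have h2 : 0 ≤ ((d : ℝ) + 2) * Real.log 2 := by positivity
      have h3 : 0 ≤ (r : ℝ) * Real.log C' := by positivity
      have h4 : ((d : ℝ) + 2) * Real.log 2 ≤ 3 / 2 * (((d : ℝ) + 2) * Real.log 2) := by linarith
      have h5 : 3 / 2 * K ≤ 3 / 2 * Real.log Δ := by linarith
      rw [hK] at h5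
      linarith
    refine hL.trans ?_
    rw [le_div_iff₀ (by positivity)]
    rcases le_total (C' ^ r * Q) 1 with h2 | h2
    · rw [max_eq_left h2] at hkr
      have : 3 * Real.log Δ * (2 * (k : ℝ) ^ r) ≤ 3 * Real.log Δ * (2 * 1) := by
        apply mul_le_mul_of_nonneg_left _ (by linarith)
        linarith
      refine this.trans ?_
      linarith
    · rw [max_eq_right h2] at hkr
      have h3 : 3 * Real.log Δ * (2 * (k : ℝ) ^ r) ≤ 3 * Real.log Δ * (2 * (C' ^ r * Q)) := by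
        apply mul_le_mul_of_nonneg_left _ (by linarith)
        linarith
      refine h3.trans ?_
      have h4 : 3 * Real.log Δ * (2 * (C' ^ r * Q)) = 6 * C' ^ r * Δ * (Real.log d / d) := by
        rw [hQ]
        have : Real.log Δ ≠ 0 := by linarith
        field_simp
        ring
      rw [h4]
      have h5 : 6 * C' ^ r * Δ * (Real.log d / d) ≤ 6 * C' ^ r * Δ * (1 / (72 * C' ^ r)) :=
        mul_le_mul_of_nonneg_left hlogd1 (by positivity)
      have h6 : 6 * C' ^ r * Δ * (1 / (72 * C' ^ r)) = Δ / 12 := by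
        field_simp
        norm_num
      rw [h6] at h5
      linarith

/-- **Disproof of the conjectured bound.** For every `r ≥ 2` and every constant `C`, for all
sufficiently large `d` and then all sufficiently large `Δ`, there is a finite `(r+1)`-uniform linear
hypergraph of maximum degree at most `Δ` that has no `d`-defective `k`-colouring with
`k ≤ max {1, C (Δ / log Δ · log d / d)^(1/r)}`. -/
theorem result : ∀ r : ℕ, 2 ≤ r → ∀ C : ℝ,
    ∃ d₀ : ℕ, 2 ≤ d₀ ∧ ∀ d : ℕ, d₀ ≤ d → ∃ Δ₀ : ℕ, 2 ≤ Δ₀ ∧ ∀ Δ : ℕ, Δ₀ ≤ Δ →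
      ∃ (n : ℕ) (E : Finset (Finset (Fin n))),
        IsUniform E (r + 1) ∧ IsLinearHyp E ∧ MaxDegreeLE E Δ ∧
        ∀ k : ℕ, (k : ℝ) ≤ max 1 (C * ((Δ / Real.log Δ) * (Real.log d / d)) ^ (1 / (r : ℝ))) →
          ¬ ∃ c : Fin n → Fin k, IsDefective E d c := by
  intro r hr C
  obtain ⟨d₀, hd₀, H⟩ := real_param r hr C
  refine ⟨d₀, hd₀, fun d hd => ?_⟩
  obtain ⟨Δ₀, hΔ₀, H'⟩ := H d hd
  refine ⟨Δ₀, hΔ₀, fun Δ hΔ => ?_⟩
  obtain ⟨h3, H''⟩ := H' Δ hΔ
  set B : ℝ := max 1 (C * ((Δ / Real.log Δ) * (Real.log d / d)) ^ (1 / (r : ℝ))) with hB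
  have hB1 : 1 ≤ B := le_max_left _ _
  set k₀ : ℕ := ⌊B⌋₊ with hk₀
  have hk₀pos : 0 < k₀ := Nat.floor_pos.mpr hB1
  have hk₀le : (k₀ : ℝ) ≤ B := Nat.floor_le (by linarith)
  obtain ⟨n, E, h4, h5, h6, h7⟩ :=
    Pool.Agent.Hyp.exists_hypergraph r d k₀ (Δ / 6) (by omega) hk₀pos h3 (H'' k₀ hk₀pos hk₀le)
  refine ⟨n, E, h4, h5, fun v => (h6 v).trans (Nat.mul_div_le Δ 6), ?_⟩
  rintro k hk ⟨c, hc⟩
  have hkk : k ≤ k₀ := Nat.le_floor hk
  obtain ⟨v, hv⟩ := h7 (fun x => Fin.castLE hkk (c x))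
  have := hc v
  simp only [Fin.castLE_inj] at hv
  omega

end Pool.Agent.Results.MP_b2f50e_co.DefectiveBoundFails
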